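import Pool.Agent.K3A.Gq
import Pool.Agent.K3S.Pc

/-!
Networks: a graph with two vertex sets `T1`, `T2` (the neighbours of the two halves of a split
vertex, the port), and their values.
-/

open Finset

namespace Pool.Agent.TwoDens.K4N

open Pool.Agent.TwoDens Pool.Agent.TwoDens.K3A.Gq Pool.Agent.TwoDens.K3S

/-- number of edges inside `S` minus `(2 + ε) |S|` -/
noncomputable def fv (ε : ℝ) {V : Type} [DecidableEq V] (G : SimpleGraph V) [DecidableRel G.Adj]
    (S : Finset V) : ℝ := (e2 G S : ℝ) / 2 - (2 + ε) * (S.card : ℝ)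

/-- the properties of a network with `n` vertices, `s` cells and value `p` -/
def NetP (ε : ℝ) (n s : ℕ) (p : ℝ) (I : Type) [Fintype I] [DecidableEq I] (A : SimpleGraph I)
    [DecidableRel A.Adj] (T1 T2 : Finset I) : Prop :=
  Fintype.card I = n ∧
  (∀ S : Finset I, 2 ≤ S.card → fv ε A S ≤ -3 - 2 * ε) ∧
  (∀ S : Finset I, 1 ≤ S.card → fv ε A S + ((S ∩ T1).card : ℝ) ≤ -1 - ε) ∧
  (∀ S : Finset I, 1 ≤ S.card → fv ε A S + ((S ∩ T2).card : ℝ) ≤ -1 - ε) ∧
  (∀ S : Finset I, fv ε A S + ((S ∩ T1).card : ℝ) + ((S ∩ T2).card : ℝ) ≤ 1 + p) ∧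
  (∀ S : Finset I, A.IsIndepSet (S : Set I) → S.card ≤ s) ∧
  (∀ S : Finset I, A.IsIndepSet (S : Set I) → S ∩ T1 = ∅ → S ∩ T2 = ∅ → S.card + 1 ≤ s)

/-- existence of a network -/
def Nw (ε : ℝ) (n s : ℕ) (p : ℝ) : Prop :=
  ∃ (I : Type) (_ : Fintype I) (_ : DecidableEq I) (A : SimpleGraph I)
    (_ : DecidableRel A.Adj) (T1 T2 : Finset I), NetP ε n s p I A T1 T2

section Glue

variable {P I : Type} [DecidableEq P] [DecidableEq I]

/-- the contribution of a glued network -/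
noncomputable def vl (ε : ℝ) (A : SimpleGraph I) [DecidableRel A.Adj] (T1 T2 : Finset I)
    (p1 p2 : P) (S1 : Finset P) (S2 : Finset I) : ℝ :=
  fv ε A S2 + (if p1 ∈ S1 then ((S2 ∩ T1).card : ℝ) else 0) +
    (if p2 ∈ S1 then ((S2 ∩ T2).card : ℝ) else 0)

theorem fv_glue (ε : ℝ) (B : SimpleGraph P) [DecidableRel B.Adj] {p1 p2 : P} (hp : p1 ≠ p2)
    (A : SimpleGraph I) [DecidableRel A.Adj] (T1 T2 : Finset I) (S1 : Finset P)
    (S2 : Finset I) :
    fv ε (glue B p1 p2 A T1 T2) (S1.disjSum S2) = fv ε B S1 + vl ε A T1 T2 p1 p2 S1 S2 := by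
  unfold fv vl fv
  rw [e2_glue B hp A T1 T2 S1 S2, Finset.card_disjSum]
  push_cast
  split_ifs <;> ring

theorem fv_empty (ε : ℝ) (A : SimpleGraph I) [DecidableRel A.Adj] : fv ε A ∅ = 0 := by
  unfold fv e2
  simp

theorem fv_one (ε : ℝ) (A : SimpleGraph I) [DecidableRel A.Adj] {S : Finset I}
    (h : S.card = 1) : fv ε A S = -(2 + ε) := by
  obtain ⟨a, rfl⟩ := Finset.card_eq_one.1 h
  unfold fv e2
  rw [sum_singleton, card_singleton]
  have h1 : ({a} : Finset I).filter (A.Adj a) = ∅ := by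
    rw [Finset.filter_eq_empty_iff]
    intro b hb
    rw [mem_singleton] at hb
    rw [hb]
    exact A.loopless.irrefl a
  rw [h1]
  simp

variable [Fintype I] {ε : ℝ} {n s : ℕ} {p : ℝ} {A : SimpleGraph I} [DecidableRel A.Adj]
  {T1 T2 : Finset I}

/-- one vertex alone or more: value at most `- 2 - ε` -/
theorem NetP.ne (hε : 0 ≤ ε) (h : NetP ε n s p I A T1 T2) {S : Finset I} (hS : 1 ≤ S.card) :
    fv ε A S ≤ -2 - ε := by
  rcases Nat.lt_or_ge S.card 2 with h1 | h1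
  · rw [fv_one ε A (by omega)]
    linarith
  · have := h.2.1 S h1
    linarith

/-- the uniform bound for the contribution of a network -/
theorem NetP.vl_le (hε : 0 ≤ ε) (h : NetP ε n s p I A T1 T2) (hp : -1 ≤ p) (p1 p2 : P)
    (S1 : Finset P) (S2 : Finset I) :
    vl ε A T1 T2 p1 p2 S1 S2 ≤ if p1 ∈ S1 ∧ p2 ∈ S1 then 1 + p else 0 := by
  obtain ⟨_, _, hb1, hb2, hc, _, _⟩ := h
  have h5 := NetP.ne (S := S2) hε ⟨‹_›, ‹_›, hb1, hb2, hc, ‹_›, ‹_›⟩
  rcases Nat.lt_or_ge S2.card 1 with h1 | h1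
  · have h2 : S2 = ∅ := by
      rw [← Finset.card_eq_zero]
      omega
    subst h2
    unfold vl
    rw [fv_empty]
    simp only [Finset.empty_inter, Finset.card_empty, Nat.cast_zero, ite_self, add_zero]
    split_ifs <;> linarith
  · have h2 := hb1 S2 h1
    have h3 := hb2 S2 h1
    have h4 := hc S2
    have h6 := h5 h1
    unfold vl
    by_cases hp1 : p1 ∈ S1
    · by_cases hp2 : p2 ∈ S1
      · rw [if_pos hp1, if_pos hp2, if_pos ⟨hp1, hp2⟩]
        linarith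
      · rw [if_pos hp1, if_neg hp2, if_neg (fun hh => hp2 hh.2)]
        linarith
    · by_cases hp2 : p2 ∈ S1
      · rw [if_neg hp1, if_pos hp2, if_neg (fun hh => hp1 hh.1)]
        linarith
      · rw [if_neg hp1, if_neg hp2, if_neg (fun hh => hp1 hh.1)]
        linarith

/-- a nonempty part of a network seen from at most one port vertex -/
theorem NetP.vl_ne (hε : 0 ≤ ε) (h : NetP ε n s p I A T1 T2) {p1 p2 : P}
    {S1 : Finset P} (hS1 : ¬ (p1 ∈ S1 ∧ p2 ∈ S1)) {S2 : Finset I} (h1 : 1 ≤ S2.card) :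
    vl ε A T1 T2 p1 p2 S1 S2 ≤ -1 - ε := by
  have h5 := NetP.ne (S := S2) hε h h1
  obtain ⟨_, _, hb1, hb2, hc, _, _⟩ := h
  have h2 := hb1 S2 h1
  have h3 := hb2 S2 h1
  unfold vl
  by_cases hp1 : p1 ∈ S1
  · by_cases hp2 : p2 ∈ S1
    · exact absurd ⟨hp1, hp2⟩ hS1
    · rw [if_pos hp1, if_neg hp2]
      linarith
  · by_cases hp2 : p2 ∈ S1
    · rw [if_neg hp1, if_pos hp2]
      linarith
    · rw [if_neg hp1, if_neg hp2]
      linarith

omit [Fintype I] in
/-- nothing of the pattern -/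
theorem vl_empty (p1 p2 : P) (S2 : Finset I) : vl ε A T1 T2 p1 p2 (∅ : Finset P) S2 = fv ε A S2 := by
  unfold vl
  simp

end Glue

end Pool.Agent.TwoDens.K4N
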