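import Pool.Agent.K4N.Net

/-!
The path of cells `K_5`, `K_5`, `K_4` as a network for `1 / 6 ≤ ε ≤ 2 / 11`.
-/

open Finset

namespace Pool.Agent.TwoDens.K4N

open Pool.Agent.TwoDens Pool.Agent.TwoDens.K3A.Gq Pool.Agent.TwoDens.K3S

/-- adjacency lists as bit masks: `0, 1, 2` and the halves `3, 4` of the outer `K_5`, the inner
`K_5` with the vertices `3, 4, 5, 6` and the halves `7, 8`, and `9, 10` -/
def mk11 (x : ℕ) : ℕ :=
  [2 + 4 + 8, 1 + 4 + 16, 1 + 2 + 16, 1 + 32 + 64 + 128, 2 + 4 + 32 + 64 + 256,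
    8 + 16 + 64 + 128, 8 + 16 + 32 + 256, 8 + 32 + 512 + 1024, 16 + 64 + 512 + 1024,
    128 + 256 + 1024, 128 + 256 + 512].getD x 0

/-- the path of three cells -/
def BE : SimpleGraph (Fin 11) where
  Adj x y := Nat.testBit (mk11 x.val) y.val = true
  symm := ⟨by decide⟩
  loopless := ⟨by decide⟩

instance : DecidableRel BE.Adj := fun x y =>
  inferInstanceAs (Decidable (Nat.testBit (mk11 x.val) y.val = true))

theorem tabE1 : ∀ S : Finset (Fin 11), 2 ≤ S.card → 3 * e2 BE S + 20 ≤ 13 * S.card := by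
  decide +kernel

theorem tabE2 : ∀ S : Finset (Fin 11), 1 ≤ S.card →
    3 * e2 BE S + 6 * (S ∩ {0, 1}).card + 7 ≤ 13 * S.card ∧
    3 * e2 BE S + 6 * (S ∩ {2, 3}).card + 7 ≤ 13 * S.card := by
  decide +kernel

theorem tabE3 : ∀ S : Finset (Fin 11),
    11 * e2 BE S + 22 * (S ∩ {0, 1}).card + 22 * (S ∩ {2, 3}).card ≤ 48 * S.card := by
  decide +kernel

theorem tabE4 : ∀ S : Finset (Fin 11), (∀ x ∈ S, ∀ y ∈ S, ¬ BE.Adj x y) →
    S.card ≤ 3 ∧ (S ∩ {0, 1} = ∅ → S ∩ {2, 3} = ∅ → S.card ≤ 2) := by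
  decide +kernel

/-- the network of the path of three cells -/
theorem nw_path {ε : ℝ} (h6 : 1 ≤ 6 * ε) (h11 : 11 * ε ≤ 2) : Nw ε 11 3 (1 - 11 * ε) := by
  refine ⟨Fin 11, inferInstance, inferInstance, BE, inferInstance, {0, 1}, {2, 3}, ?_, ?_, ?_, ?_,
    ?_, ?_, ?_⟩
  · exact Fintype.card_fin 11
  · intro S hS
    have hS' : (2 : ℝ) ≤ S.card := by exact_mod_cast hS
    have hv := mul_nonneg (sub_nonneg.2 h6) (sub_nonneg.2 hS')
    have h8 : 3 * (e2 BE S : ℝ) + 20 ≤ 13 * S.card := by exact_mod_cast tabE1 S hS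
    unfold fv
    linarith
  · intro S hS
    have hS' : (1 : ℝ) ≤ S.card := by exact_mod_cast hS
    have hv := mul_nonneg (sub_nonneg.2 h6) (sub_nonneg.2 hS')
    have h8 : 3 * (e2 BE S : ℝ) + 6 * ((S ∩ {0, 1}).card : ℝ) + 7 ≤ 13 * S.card := by
      exact_mod_cast (tabE2 S hS).1
    unfold fv
    linarith
  · intro S hS
    have hS' : (1 : ℝ) ≤ S.card := by exact_mod_cast hS
    have hv := mul_nonneg (sub_nonneg.2 h6) (sub_nonneg.2 hS')
    have h8 : 3 * (e2 BE S : ℝ) + 6 * ((S ∩ {2, 3}).card : ℝ) + 7 ≤ 13 * S.card := by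
      exact_mod_cast (tabE2 S hS).2
    unfold fv
    linarith
  · intro S
    have hS : S.card ≤ 11 := (Finset.card_le_univ S).trans (by simp)
    have hS' : (S.card : ℝ) ≤ 11 := by exact_mod_cast hS
    have hv := mul_nonneg (sub_nonneg.2 h11) (sub_nonneg.2 hS')
    have h8 : 11 * (e2 BE S : ℝ) + 22 * ((S ∩ {0, 1}).card : ℝ) +
        22 * ((S ∩ {2, 3}).card : ℝ) ≤ 48 * S.card := by exact_mod_cast tabE3 S
    unfold fv
    linarith
  · intro S hI
    refine (tabE4 S ?_).1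
    intro x hx y hy hxy
    exact hI (Finset.mem_coe.2 hx) (Finset.mem_coe.2 hy) hxy.ne hxy
  · intro S hI h1 h2
    have := (tabE4 S (by
      intro x hx y hy hxy
      exact hI (Finset.mem_coe.2 hx) (Finset.mem_coe.2 hy) hxy.ne hxy)).2 h1 h2
    omega

end Pool.Agent.TwoDens.K4N
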