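import Pool.Agent.K4N.Def

/-!
Gluing one network to a finite pattern, and the three elementary steps.
-/

open Finset

namespace Pool.Agent.TwoDens.K4N

open Pool.Agent.TwoDens Pool.Agent.TwoDens.K3A.Gq Pool.Agent.TwoDens.K3S

section One

variable {P : Type} [Fintype P] [DecidableEq P] (B : SimpleGraph P) [DecidableRel B.Adj]

omit [Fintype P] in
/-- the sparseness of a pattern with one network -/
theorem glue_sparse {I : Type} [Fintype I] [DecidableEq I] {A : SimpleGraph I}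
    [DecidableRel A.Adj] {T1 T2 : Finset I} {ε : ℝ} {n s : ℕ} {p : ℝ}
    (hε : 0 ≤ ε) (hp : -1 ≤ p) (h : NetP ε n s p I A T1 T2) {p1 p2 : P} (hne : p1 ≠ p2)
    (ha : ∀ S : Finset P, 2 ≤ S.card →
      fv ε B S + (if p1 ∈ S ∧ p2 ∈ S then 1 + p else 0) ≤ -3 - 2 * ε)
    (S : Finset (P ⊕ I)) (hS : 2 ≤ S.card) :
    fv ε (glue B p1 p2 A T1 T2) S ≤ -3 - 2 * ε := by
  obtain ⟨S1, S2, rfl⟩ := exists_parts S
  rw [fv_glue ε B hne]
  rw [Finset.card_disjSum] at hS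
  rcases Nat.lt_or_ge S1.card 1 with h1 | h1
  · have h2 : S1 = ∅ := by
      rw [← Finset.card_eq_zero]
      omega
    subst h2
    rw [vl_empty, fv_empty]
    have h3 := h.2.1 S2 (by
      rw [Finset.card_empty] at hS
      omega)
    linarith
  · rcases Nat.lt_or_ge S1.card 2 with h2 | h2
    · have h3 : S1.card = 1 := by omega
      have h4 : ¬ (p1 ∈ S1 ∧ p2 ∈ S1) := by
        intro h5
        obtain ⟨a, rfl⟩ := Finset.card_eq_one.1 h3
        exact hne ((mem_singleton.1 h5.1).trans (mem_singleton.1 h5.2).symm)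
      have h5 := h.vl_ne hε (S1 := S1) (p1 := p1) (p2 := p2) h4 (S2 := S2) (by omega)
      rw [fv_one ε B h3]
      linarith
    · have h3 := h.vl_le hε hp p1 p2 S1 S2
      have h4 := ha S1 h2
      linarith

omit [Fintype P] [DecidableRel B.Adj] in
/-- the independence number of a pattern with one network -/
theorem glue_indep {I : Type} [Fintype I] [DecidableEq I] {A : SimpleGraph I}
    [DecidableRel A.Adj] {T1 T2 : Finset I} {ε : ℝ} {n s s' : ℕ} {p : ℝ}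
    (h : NetP ε n s p I A T1 T2) {p1 p2 : P} {S1 : Finset P} {S2 : Finset I}
    (hd : (∀ x ∈ S1, ∀ y ∈ S1, ¬ B.Adj x y) →
      S1.card + s ≤ s' + (if p1 ∈ S1 ∧ p2 ∈ S1 then 1 else 0))
    (hI : (glue B p1 p2 A T1 T2).IsIndepSet
      ((S1.disjSum S2 : Finset (P ⊕ I)) : Set (P ⊕ I))) :
    (S1.disjSum S2).card ≤ s' := by
  rw [Finset.card_disjSum]
  obtain ⟨h1, h2, h3, h4⟩ := indep_glue hI
  have h5 := hd h1
  obtain ⟨_, _, _, _, _, h6, h7⟩ := h
  split_ifs at h5 with h8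
  · have h9 := h7 S2 h2 (h3 h8.1) (h4 h8.2)
    omega
  · have h9 := h6 S2 h2
    omega

/-- gluing one network to a pattern -/
theorem glue_one {ε : ℝ} {n s n' s' : ℕ} {p p' : ℝ} (hε : 0 ≤ ε) (hp : -1 ≤ p)
    (h : Nw ε n s p) {p1 p2 : P} (hne : p1 ≠ p2) (R1 R2 : Finset P)
    (hn : Fintype.card P + n = n')
    (ha : ∀ S : Finset P, 2 ≤ S.card →
      fv ε B S + (if p1 ∈ S ∧ p2 ∈ S then 1 + p else 0) ≤ -3 - 2 * ε)
    (hb1 : ∀ S : Finset P, 1 ≤ S.card → fv ε B S + ((S ∩ R1).card : ℝ) +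
      (if p1 ∈ S ∧ p2 ∈ S then 1 + p else 0) ≤ -1 - ε)
    (hb2 : ∀ S : Finset P, 1 ≤ S.card → fv ε B S + ((S ∩ R2).card : ℝ) +
      (if p1 ∈ S ∧ p2 ∈ S then 1 + p else 0) ≤ -1 - ε)
    (hc : ∀ S : Finset P, fv ε B S + ((S ∩ R1).card : ℝ) + ((S ∩ R2).card : ℝ) +
      (if p1 ∈ S ∧ p2 ∈ S then 1 + p else 0) ≤ 1 + p')
    (hd : ∀ S : Finset P, (∀ x ∈ S, ∀ y ∈ S, ¬ B.Adj x y) →
      S.card + s ≤ s' + (if p1 ∈ S ∧ p2 ∈ S then 1 else 0))
    (he : ∀ S : Finset P, (∀ x ∈ S, ∀ y ∈ S, ¬ B.Adj x y) → S ∩ R1 = ∅ → S ∩ R2 = ∅ →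
      S.card + s + 1 ≤ s' + (if p1 ∈ S ∧ p2 ∈ S then 1 else 0)) :
    Nw ε n' s' p' := by
  obtain ⟨I, _, _, A, _, T1, T2, h⟩ := h
  refine ⟨P ⊕ I, inferInstance, inferInstance, glue B p1 p2 A T1 T2, inferInstance,
    R1.disjSum ∅, R2.disjSum ∅, ?_, ?_, ?_, ?_, ?_, ?_, ?_⟩
  · rw [Fintype.card_sum, h.1, hn]
  · exact fun S hS => glue_sparse B hε hp h hne ha S hS
  · intro S hS
    obtain ⟨S1, S2, rfl⟩ := exists_parts S
    rw [fv_glue ε B hne, inter_map, Finset.card_disjSum, Finset.card_empty, Nat.add_zero]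
    rw [Finset.card_disjSum] at hS
    rcases Nat.lt_or_ge S1.card 1 with h1 | h1
    · have h2 : S1 = ∅ := by
        rw [← Finset.card_eq_zero]
        omega
      subst h2
      rw [vl_empty, fv_empty, Finset.empty_inter, Finset.card_empty]
      have h3 := h.ne hε (S := S2) (by
        rw [Finset.card_empty] at hS
        omega)
      push_cast
      linarith
    · have h3 := h.vl_le hε hp p1 p2 S1 S2
      have h4 := hb1 S1 h1
      linarith
  · intro S hS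
    obtain ⟨S1, S2, rfl⟩ := exists_parts S
    rw [fv_glue ε B hne, inter_map, Finset.card_disjSum, Finset.card_empty, Nat.add_zero]
    rw [Finset.card_disjSum] at hS
    rcases Nat.lt_or_ge S1.card 1 with h1 | h1
    · have h2 : S1 = ∅ := by
        rw [← Finset.card_eq_zero]
        omega
      subst h2
      rw [vl_empty, fv_empty, Finset.empty_inter, Finset.card_empty]
      have h3 := h.ne hε (S := S2) (by
        rw [Finset.card_empty] at hS
        omega)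
      push_cast
      linarith
    · have h3 := h.vl_le hε hp p1 p2 S1 S2
      have h4 := hb2 S1 h1
      linarith
  · intro S
    obtain ⟨S1, S2, rfl⟩ := exists_parts S
    rw [fv_glue ε B hne, inter_map, inter_map, Finset.card_disjSum, Finset.card_disjSum,
      Finset.card_empty, Nat.add_zero, Nat.add_zero]
    have h3 := h.vl_le hε hp p1 p2 S1 S2
    have h4 := hc S1
    linarith
  · intro S hI
    obtain ⟨S1, S2, rfl⟩ := exists_parts S
    exact glue_indep B h (hd S1) hI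
  · intro S hI hR1 hR2
    obtain ⟨S1, S2, rfl⟩ := exists_parts S
    rw [inter_map, ← Finset.card_eq_zero, Finset.card_disjSum, Finset.card_empty,
      Nat.add_zero, Finset.card_eq_zero] at hR1 hR2
    have h5 := glue_indep (s' := s' - 1) B h (S1 := S1) (S2 := S2) (p1 := p1) (p2 := p2) (by
      intro h6
      have h7 := he S1 h6 hR1 hR2
      omega) hI
    have h8 : 1 ≤ s' := by
      by_contra h9
      have h10 := he ∅ (by simp) (by simp) (by simp)
      simp at h10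
      omega
    omega

end One

/-! ### The pattern `K_4` minus an edge -/

/-- `K_4` minus the edge `01` -/
def Q4 : SimpleGraph (Fin 4) where
  Adj x y := x ≠ y ∧ x.val + y.val ≠ 1
  symm := ⟨by decide⟩
  loopless := ⟨by decide⟩

instance : DecidableRel Q4.Adj := fun x y =>
  inferInstanceAs (Decidable (x ≠ y ∧ x.val + y.val ≠ 1))

theorem tab4a : ∀ S : Finset (Fin 4), 2 ≤ S.card → ¬ (0 ∈ S ∧ 1 ∈ S) →
    e2 Q4 S + 6 ≤ 4 * S.card := by
  decide +kernel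

theorem tab4b : ∀ S : Finset (Fin 4), (0 ∈ S ∧ 1 ∈ S) → 2 ≤ S.card ∧
    (e2 Q4 S + 8 ≤ 4 * S.card ∨ (S.card = 4 ∧ e2 Q4 S + 6 ≤ 4 * S.card)) := by
  decide +kernel

theorem tab4c : ∀ S : Finset (Fin 4), 1 ≤ S.card → ¬ (0 ∈ S ∧ 1 ∈ S) →
    e2 Q4 S + 2 * (S ∩ {0, 2}).card + 2 ≤ 4 * S.card ∧
    e2 Q4 S + 2 * (S ∩ {1, 3}).card + 2 ≤ 4 * S.card := by
  decide +kernel

theorem tab4d : ∀ S : Finset (Fin 4), (0 ∈ S ∧ 1 ∈ S) →
    (e2 Q4 S + 2 * (S ∩ {0, 2}).card + 4 ≤ 4 * S.card ∨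
      (S.card = 4 ∧ e2 Q4 S + 2 * (S ∩ {0, 2}).card + 2 ≤ 4 * S.card)) ∧
    (e2 Q4 S + 2 * (S ∩ {1, 3}).card + 4 ≤ 4 * S.card ∨
      (S.card = 4 ∧ e2 Q4 S + 2 * (S ∩ {1, 3}).card + 2 ≤ 4 * S.card)) := by
  decide +kernel

theorem tab4e : ∀ S : Finset (Fin 4),
    (¬ (0 ∈ S ∧ 1 ∈ S) → e2 Q4 S + 2 * (S ∩ {0, 2}).card + 2 * (S ∩ {1, 3}).card ≤
      4 * S.card) ∧
    ((0 ∈ S ∧ 1 ∈ S) →
      (e2 Q4 S + 2 * (S ∩ {0, 2}).card + 2 * (S ∩ {1, 3}).card + 2 ≤ 4 * S.card ∨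
      (S.card = 4 ∧ e2 Q4 S + 2 * (S ∩ {0, 2}).card + 2 * (S ∩ {1, 3}).card ≤
        4 * S.card + 2))) := by
  decide +kernel

theorem tab4f : ∀ S : Finset (Fin 4), (∀ x ∈ S, ∀ y ∈ S, ¬ Q4.Adj x y) →
    S.card ≤ 1 + (if (0 : Fin 4) ∈ S ∧ (1 : Fin 4) ∈ S then 1 else 0) ∧
    (S ∩ {0, 2} = ∅ → S ∩ {1, 3} = ∅ → S.card = 0) := by
  decide +kernel

/-- the sparseness of the pattern -/
theorem q4_sparse {ε p : ℝ} (hε : 0 ≤ ε) (h2 : p ≤ -1 + 2 * ε) (h3 : p ≤ -2 * ε)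
    (S : Finset (Fin 4)) (hS : 2 ≤ S.card) :
    fv ε Q4 S + (if (0 : Fin 4) ∈ S ∧ (1 : Fin 4) ∈ S then 1 + p else 0) ≤ -3 - 2 * ε := by
  have hS' : (2 : ℝ) ≤ S.card := by exact_mod_cast hS
  have hv := mul_le_mul_of_nonneg_left hS' hε
  unfold fv
  split_ifs with h
  · rcases (tab4b S h).2 with h4 | ⟨h4, h5⟩
    · have h6 : (e2 Q4 S : ℝ) + 8 ≤ 4 * S.card := by exact_mod_cast h4
      linarith
    · have h6 : (e2 Q4 S : ℝ) + 6 ≤ 4 * S.card := by exact_mod_cast h5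
      have h7 : (S.card : ℝ) = 4 := by exact_mod_cast h4
      rw [h7] at h6 ⊢
      linarith
  · have h6 : (e2 Q4 S : ℝ) + 6 ≤ 4 * S.card := by exact_mod_cast tab4a S hS h
    linarith

/-- a bare `K_5` in line -/
theorem nw_zero {ε : ℝ} {n s : ℕ} {p : ℝ} (hε : 0 ≤ ε) (h7 : 4 * ε ≤ 1) (h : Nw ε n s p)
    (h1 : -1 ≤ p) (h2 : p + 1 - 4 * ε ≤ -2 * ε) :
    Nw ε (n + 4) (s + 1) (p + 1 - 4 * ε) := by
  refine glue_one Q4 hε h1 h (p1 := 0) (p2 := 1) (by decide) {0, 2} {1, 3} ?_ ?_ ?_ ?_ ?_ ?_ ?_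
  · rw [Fintype.card_fin]
    omega
  · exact fun S hS => q4_sparse hε (by linarith) (by linarith) S hS
  · intro S hS
    have hS' : (1 : ℝ) ≤ S.card := by exact_mod_cast hS
    have hv := mul_le_mul_of_nonneg_left hS' hε
    unfold fv
    split_ifs with h
    · have h0 := (tab4b S h).1
      have h0' : (2 : ℝ) ≤ S.card := by exact_mod_cast h0
      have hv' := mul_le_mul_of_nonneg_left h0' hε
      rcases (tab4d S h).1 with h4 | ⟨h4, h5⟩
      · have h6 : (e2 Q4 S : ℝ) + 2 * ((S ∩ {0, 2}).card : ℝ) + 4 ≤ 4 * S.card := by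
          exact_mod_cast h4
        linarith
      · have h6 : (e2 Q4 S : ℝ) + 2 * ((S ∩ {0, 2}).card : ℝ) + 2 ≤ 4 * S.card := by
          exact_mod_cast h5
        have h7 : (S.card : ℝ) = 4 := by exact_mod_cast h4
        rw [h7] at h6 ⊢
        linarith
    · have h6 : (e2 Q4 S : ℝ) + 2 * ((S ∩ {0, 2}).card : ℝ) + 2 ≤ 4 * S.card := by
        exact_mod_cast (tab4c S hS h).1
      linarith
  · intro S hS
    have hS' : (1 : ℝ) ≤ S.card := by exact_mod_cast hS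
    have hv := mul_le_mul_of_nonneg_left hS' hε
    unfold fv
    split_ifs with h
    · have h0 := (tab4b S h).1
      have h0' : (2 : ℝ) ≤ S.card := by exact_mod_cast h0
      have hv' := mul_le_mul_of_nonneg_left h0' hε
      rcases (tab4d S h).2 with h4 | ⟨h4, h5⟩
      · have h6 : (e2 Q4 S : ℝ) + 2 * ((S ∩ {1, 3}).card : ℝ) + 4 ≤ 4 * S.card := by
          exact_mod_cast h4
        linarith
      · have h6 : (e2 Q4 S : ℝ) + 2 * ((S ∩ {1, 3}).card : ℝ) + 2 ≤ 4 * S.card := by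
          exact_mod_cast h5
        have h7 : (S.card : ℝ) = 4 := by exact_mod_cast h4
        rw [h7] at h6 ⊢
        linarith
    · have h6 : (e2 Q4 S : ℝ) + 2 * ((S ∩ {1, 3}).card : ℝ) + 2 ≤ 4 * S.card := by
        exact_mod_cast (tab4c S hS h).2
      linarith
  · intro S
    have hS' : (0 : ℝ) ≤ S.card := Nat.cast_nonneg _
    have hv := mul_nonneg hε hS'
    unfold fv
    split_ifs with h
    · have h0 := (tab4b S h).1
      have h0' : (2 : ℝ) ≤ S.card := by exact_mod_cast h0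
      have hv' := mul_le_mul_of_nonneg_left h0' hε
      rcases (tab4e S).2 h with h4 | ⟨h4, h5⟩
      · have h6 : (e2 Q4 S : ℝ) + 2 * ((S ∩ {0, 2}).card : ℝ) +
            2 * ((S ∩ {1, 3}).card : ℝ) + 2 ≤ 4 * S.card := by exact_mod_cast h4
        linarith
      · have h6 : (e2 Q4 S : ℝ) + 2 * ((S ∩ {0, 2}).card : ℝ) +
            2 * ((S ∩ {1, 3}).card : ℝ) ≤ 4 * S.card + 2 := by exact_mod_cast h5
        have h7 : (S.card : ℝ) = 4 := by exact_mod_cast h4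
        rw [h7] at h6 ⊢
        linarith
    · have h6 : (e2 Q4 S : ℝ) + 2 * ((S ∩ {0, 2}).card : ℝ) +
          2 * ((S ∩ {1, 3}).card : ℝ) ≤ 4 * S.card := by exact_mod_cast (tab4e S).1 h
      linarith
  · intro S hS
    have h6 := (tab4f S hS).1
    omega
  · intro S hS hR1 hR2
    have h6 := (tab4f S hS).2 hR1 hR2
    omega

/-- closing by a `K_4` on the port -/
theorem nw_end {ε : ℝ} {n s : ℕ} {p : ℝ} (hε : 0 ≤ ε) (h : Nw ε n s p) (h1 : -1 ≤ p)
    (h2 : p ≤ -1 + 2 * ε) (h3 : p ≤ -2 * ε) : Pc (2 + ε) (n + 4) (s + 1) := by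
  obtain ⟨I, _, _, A, _, T1, T2, h⟩ := h
  refine ⟨Fin 4 ⊕ I, inferInstance, inferInstance, glue Q4 0 1 A T1 T2, inferInstance, ?_, ?_, ?_⟩
  · rw [Fintype.card_sum, h.1, Fintype.card_fin]
    omega
  · intro S hI
    obtain ⟨S1, S2, rfl⟩ := exists_parts S
    refine glue_indep Q4 h ?_ hI
    intro h4
    have h6 := (tab4f S1 h4).1
    omega
  · intro S hS
    have h4 := glue_sparse Q4 hε h1 h (p1 := 0) (p2 := 1) (by decide)
      (fun S hS => q4_sparse hε h2 h3 S hS) S hS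
    unfold fv at h4
    linarith

end Pool.Agent.TwoDens.K4N
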