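import Pool.Agent.K3S.Pc

/-!
The ordering lemma: steps up and down inside a window, and the four regimes of the words.
-/

namespace Pool.Agent.TwoDens.K4N

/-- A word with `A` steps up and `B` steps down can be ordered inside a window of width at least
`u + d`. -/
theorem order (Q : ℕ → ℕ → ℝ → Prop) {lo hi u d : ℝ} {nu su nd sd : ℕ} (hu : 0 ≤ u) (hd : 0 ≤ d)
    (hud : u + d ≤ hi - lo)
    (up : ∀ n s p, lo ≤ p → p ≤ hi → p + u ≤ hi → Q n s p → Q (n + nu) (s + su) (p + u))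
    (down : ∀ n s p, lo ≤ p → p ≤ hi → lo ≤ p - d → Q n s p → Q (n + nd) (s + sd) (p - d)) :
    ∀ N A B : ℕ, A + B = N → ∀ (n s : ℕ) (p : ℝ), lo ≤ p → p ≤ hi →
      lo ≤ p + A * u - B * d → p + A * u - B * d ≤ hi → Q n s p →
      Q (n + A * nu + B * nd) (s + A * su + B * sd) (p + A * u - B * d) := by
  intro N
  induction N with
  | zero =>
    intro A B hAB n s p _ _ _ _ hQ
    obtain ⟨rfl, rfl⟩ : A = 0 ∧ B = 0 := by omega
    simpa using hQ
  | succ N ih =>
    intro A B hAB n s p h1 h2 h3 h4 hQ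
    have hcase : (∃ A', A = A' + 1 ∧ lo ≤ p + A' * u - B * d) ∨
        (∃ B', B = B' + 1 ∧ p + A * u - B' * d ≤ hi) := by
      by_cases hA : A = 0
      · right
        obtain ⟨B', rfl⟩ : ∃ B', B = B' + 1 := ⟨B - 1, by omega⟩
        refine ⟨B', rfl, ?_⟩
        subst hA
        have : (0 : ℝ) ≤ (B' : ℝ) * d := by positivity
        push_cast
        linarith
      · obtain ⟨A', rfl⟩ : ∃ A', A = A' + 1 := ⟨A - 1, by omega⟩
        by_cases hB : B = 0
        · left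
          refine ⟨A', rfl, ?_⟩
          subst hB
          have : (0 : ℝ) ≤ (A' : ℝ) * u := by positivity
          push_cast
          linarith
        · obtain ⟨B', rfl⟩ : ∃ B', B = B' + 1 := ⟨B - 1, by omega⟩
          by_cases hc : lo ≤ p + A' * u - (B' + 1 : ℕ) * d
          · exact Or.inl ⟨A', rfl, hc⟩
          · right
            refine ⟨B', rfl, ?_⟩
            push_cast at hc h3 h4 ⊢
            push Not at hc
            linarith
    rcases hcase with ⟨A', rfl, hc⟩ | ⟨B', rfl, hc⟩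
    · have h5 : p + A' * u - B * d ≤ hi := by
        push_cast at h4
        linarith
      have h6 := ih A' B (by omega) n s p h1 h2 hc h5 hQ
      have h7 := up _ _ _ hc h5 (by push_cast at h4; linarith) h6
      have e1 : n + A' * nu + B * nd + nu = n + (A' + 1) * nu + B * nd := by ring
      have e2 : s + A' * su + B * sd + su = s + (A' + 1) * su + B * sd := by ring
      have e3 : p + A' * u - B * d + u = p + (A' + 1 : ℕ) * u - B * d := by push_cast; ring
      rwa [e1, e2, e3] at h7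
    · have h5 : lo ≤ p + A * u - B' * d := by
        push_cast at h3
        linarith
      have h6 := ih A B' (by omega) n s p h1 h2 h5 hc hQ
      have h7 := down _ _ _ h5 hc (by push_cast at h3; linarith) h6
      have e1 : n + A * nu + B' * nd + nd = n + A * nu + (B' + 1) * nd := by ring
      have e2 : s + A * su + B' * sd + sd = s + A * su + (B' + 1) * sd := by ring
      have e3 : p + A * u - B' * d - d = p + A * u - (B' + 1 : ℕ) * d := by push_cast; ring
      rwa [e1, e2, e3] at h7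

/-- The word: the steps give a network with `4 x + 3 y + 7` vertices, bound `x + y + 2` and value
`-1 + 2 ε`. Here `x + 1` and `y + 2` are the numbers of the cells of the two kinds. -/
theorem word (Q : ℕ → ℕ → ℝ → Prop) (ε : ℝ) (x y : ℕ) (h1 : y ≤ x) (h2 : 3 * x ≤ 10 * y + 2)
    (hε : ε * (4 * x + 3 * y + 9) = x - y + 1)
    (hT : 7 * ε ≤ 1 → Q 7 2 (-(7 * ε)))
    (hone : ∀ n s p, p ≤ -(2 * ε) → -1 ≤ p - 7 * ε → Q n s p → Q (n + 7) (s + 2) (p - 7 * ε))
    (hzero : ∀ n s p, -1 ≤ p → p + (1 - 4 * ε) ≤ -(2 * ε) → Q n s p →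
      Q (n + 4) (s + 1) (p + (1 - 4 * ε)))
    (htwo : ∀ n s p n' s' p', -1 ≤ p → p ≤ -(2 * ε) → -1 ≤ p' → p' ≤ -(2 * ε) →
      -1 ≤ p + p' + (1 - 4 * ε) → p + p' + (1 - 4 * ε) ≤ -(2 * ε) → Q n s p → Q n' s' p' →
      Q (n + n' + 4) (s + s' + 1) (p + p' + (1 - 4 * ε))) :
    Q (4 * x + 3 * y + 7) (x + y + 2) (-1 + 2 * ε) := by
  have hM : (0 : ℝ) < 4 * x + 3 * y + 9 := by positivity
  have h1' : (y : ℝ) ≤ x := by exact_mod_cast h1
  have h2' : (3 : ℝ) * x ≤ 10 * y + 2 := by exact_mod_cast h2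
  have hle : ∀ a b : ℝ, a * (x - y + 1) ≤ b * (4 * x + 3 * y + 9) → a * ε ≤ b := by
    intro a b h
    rw [← hε, ← mul_assoc] at h
    exact le_of_mul_le_mul_right h hM
  have hge : ∀ a b : ℝ, b * (4 * x + 3 * y + 9) ≤ a * (x - y + 1) → b ≤ a * ε := by
    intro a b h
    rw [← hε, ← mul_assoc] at h
    exact le_of_mul_le_mul_right h hM
  have hpos : 0 ≤ ε := by
    have := hge 1 0 (by linarith)
    linarith
  have h7 : 7 * ε ≤ 1 := hle 7 1 (by linarith)
  have hT' := hT h7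
  have step1 : ∀ n s p, -1 ≤ p → p ≤ -(2 * ε) → -1 ≤ p - 7 * ε → Q n s p →
      Q (n + 7) (s + 2) (p - 7 * ε) := fun n s p _ h3 h4 h5 => hone n s p h3 h4 h5
  have step0 : ∀ n s p, -1 ≤ p → p ≤ -(2 * ε) → p + (1 - 4 * ε) ≤ -(2 * ε) → Q n s p →
      Q (n + 4) (s + 1) (p + (1 - 4 * ε)) := fun n s p h3 _ h4 h5 => hzero n s p h3 h4 h5
  have stepT : ∀ n s p, -1 ≤ p → p ≤ -(2 * ε) → -1 ≤ p + (1 - 11 * ε) →
      p + (1 - 11 * ε) ≤ -(2 * ε) → Q n s p → Q (n + 11) (s + 3) (p + (1 - 11 * ε)) := by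
    intro n s p h3 h4 h5 h6 hQ
    have h8 := htwo n s p 7 2 (-(7 * ε)) h3 h4 (by linarith) (by linarith) (by linarith)
      (by linarith) hQ hT'
    have e : p + -(7 * ε) + (1 - 4 * ε) = p + (1 - 11 * ε) := by ring
    rwa [e] at h8
  by_cases c1 : x + 1 ≤ 2 * y
  · -- first regime
    have c1' : (x : ℝ) + 1 ≤ 2 * y := by exact_mod_cast c1
    have h11 : 11 * ε ≤ 1 := hle 11 1 (by linarith)
    obtain ⟨A, rfl⟩ : ∃ A, x = y + A := ⟨x - y, by omega⟩
    obtain ⟨B, rfl⟩ : ∃ B, y = A + B := ⟨y - A, by omega⟩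
    push_cast at hε
    have hend : -(7 * ε) + (A : ℝ) * (1 - 11 * ε) - (B : ℝ) * (7 * ε) = -1 + 2 * ε := by
      linear_combination -hε
    have h := order Q (lo := -1) (hi := -(2 * ε)) (u := 1 - 11 * ε) (d := 7 * ε) (nu := 11)
      (su := 3) (nd := 7) (sd := 2) (by linarith) (by linarith) (by linarith)
      (fun n s p h3 h4 h5 h6 => stepT n s p h3 h4 (by linarith) h5 h6)
      step1 (A + B) A B rfl 7 2 (-(7 * ε)) (by linarith) (by linarith)
      (by rw [hend]; linarith) (by rw [hend]; linarith) hT'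
    rw [hend] at h
    have e1 : 7 + A * 11 + B * 7 = 4 * (A + B + A) + 3 * (A + B) + 7 := by ring
    have e2 : 2 + A * 3 + B * 2 = A + B + A + (A + B) + 2 := by ring
    rwa [e1, e2] at h
  by_cases c2 : 5 * x ≤ 12 * y
  · -- second regime
    have c1' : (2 : ℝ) * y ≤ x := by exact_mod_cast (by omega : 2 * y ≤ x)
    have c2' : (5 : ℝ) * x ≤ 12 * y := by exact_mod_cast c2
    have h11 : 1 ≤ 11 * ε := hge 11 1 (by linarith)
    have h9 : 9 * ε ≤ 1 := hle 9 1 (by linarith)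
    obtain ⟨A, rfl⟩ : ∃ A, x = 2 * y + A := ⟨x - 2 * y, by omega⟩
    push_cast at hε
    have hend : -(7 * ε) + (A : ℝ) * (1 - 4 * ε) - (y : ℝ) * (11 * ε - 1) = -1 + 2 * ε := by
      linear_combination -hε
    have h := order Q (lo := -1) (hi := -(2 * ε)) (u := 1 - 4 * ε) (d := 11 * ε - 1) (nu := 4)
      (su := 1) (nd := 11) (sd := 3) (by linarith) (by linarith) (by linarith)
      step0
      (fun n s p h3 h4 h5 h6 => by
        have h8 := stepT n s p h3 h4 (by linarith) (by linarith) h6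
        have e : p + (1 - 11 * ε) = p - (11 * ε - 1) := by ring
        rwa [e] at h8)
      (A + y) A y rfl 7 2 (-(7 * ε)) (by linarith) (by linarith)
      (by rw [hend]; linarith) (by rw [hend]; linarith) hT'
    rw [hend] at h
    have e1 : 7 + A * 4 + y * 11 = 4 * (2 * y + A) + 3 * y + 7 := by ring
    have e2 : 2 + A * 1 + y * 3 = 2 * y + A + y + 2 := by ring
    rwa [e1, e2] at h
  -- the third and the fourth regime
  have c1' : (12 : ℝ) * y ≤ 5 * x := by exact_mod_cast (by omega : 12 * y ≤ 5 * x)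
  have h9 : 1 ≤ 9 * ε := hge 9 1 (by linarith)
  have hT0 : Q 11 3 (1 - 11 * ε) := by
    have h8 := hzero 7 2 (-(7 * ε)) (by linarith) (by linarith) hT'
    have e : -(7 * ε) + (1 - 4 * ε) = 1 - 11 * ε := by ring
    rwa [e] at h8
  have stepT0 : ∀ n s p, -1 ≤ p → p ≤ -(2 * ε) → -1 ≤ p + (2 - 15 * ε) →
      p + (2 - 15 * ε) ≤ -(2 * ε) → Q n s p → Q (n + 15) (s + 4) (p + (2 - 15 * ε)) := by
    intro n s p h3 h4 h5 h6 hQ
    have h8 := htwo n s p 11 3 (1 - 11 * ε) h3 h4 (by linarith) (by linarith) (by linarith)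
      (by linarith) hQ hT0
    have e : p + (1 - 11 * ε) + (1 - 4 * ε) = p + (2 - 15 * ε) := by ring
    rwa [e] at h8
  by_cases c3 : x ≤ 3 * y
  · -- third regime
    have c3' : (x : ℝ) ≤ 3 * y := by exact_mod_cast c3
    have h15 : 15 * ε ≤ 2 := hle 15 2 (by linarith)
    obtain ⟨A, hA⟩ : ∃ A, x = 2 * y + A := ⟨x - 2 * y, by omega⟩
    obtain ⟨B, rfl⟩ : ∃ B, y = A + B := ⟨y - A, by omega⟩
    subst hA
    push_cast at hε
    have hend : -(7 * ε) + (A : ℝ) * (2 - 15 * ε) - (B : ℝ) * (11 * ε - 1) = -1 + 2 * ε := by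
      linear_combination -hε
    have h := order Q (lo := -1) (hi := -(2 * ε)) (u := 2 - 15 * ε) (d := 11 * ε - 1) (nu := 15)
      (su := 4) (nd := 11) (sd := 3) (by linarith) (by linarith) (by linarith)
      (fun n s p h3 h4 h5 h6 => stepT0 n s p h3 h4 (by linarith) h5 h6)
      (fun n s p h3 h4 h5 h6 => by
        have h8 := stepT n s p h3 h4 (by linarith) (by linarith) h6
        have e : p + (1 - 11 * ε) = p - (11 * ε - 1) := by ring
        rwa [e] at h8)
      (A + B) A B rfl 7 2 (-(7 * ε)) (by linarith) (by linarith)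
      (by rw [hend]; linarith) (by rw [hend]; linarith) hT'
    rw [hend] at h
    have e1 : 7 + A * 15 + B * 11 = 4 * (2 * (A + B) + A) + 3 * (A + B) + 7 := by ring
    have e2 : 2 + A * 4 + B * 3 = 2 * (A + B) + A + (A + B) + 2 := by ring
    rwa [e1, e2] at h
  · -- fourth regime
    have c3' : (3 : ℝ) * y + 1 ≤ x := by exact_mod_cast (by omega : 3 * y + 1 ≤ x)
    have h15 : 2 ≤ 15 * ε := hge 15 2 (by linarith)
    obtain ⟨A, rfl⟩ : ∃ A, x = 3 * y + A := ⟨x - 3 * y, by omega⟩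
    push_cast at hε
    have hend : -(7 * ε) + (A : ℝ) * (1 - 4 * ε) - (y : ℝ) * (15 * ε - 2) = -1 + 2 * ε := by
      linear_combination -hε
    have h := order Q (lo := -1) (hi := -(2 * ε)) (u := 1 - 4 * ε) (d := 15 * ε - 2) (nu := 4)
      (su := 1) (nd := 15) (sd := 4) (by linarith) (by linarith) (by linarith)
      step0
      (fun n s p h3 h4 h5 h6 => by
        have h8 := stepT0 n s p h3 h4 (by linarith) (by linarith) h6
        have e : p + (2 - 15 * ε) = p - (15 * ε - 2) := by ring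
        rwa [e] at h8)
      (A + y) A y rfl 7 2 (-(7 * ε)) (by linarith) (by linarith)
      (by rw [hend]; linarith) (by rw [hend]; linarith) hT'
    rw [hend] at h
    have e1 : 7 + A * 4 + y * 15 = 4 * (3 * y + A) + 3 * y + 7 := by ring
    have e2 : 2 + A * 1 + y * 4 = 3 * y + A + y + 2 := by ring
    rwa [e1, e2] at h

/-- The same for `s` and `i`. -/
theorem word' (Q : ℕ → ℕ → ℝ → Prop) (R : ℕ → ℕ → Prop) (s i : ℕ) (h1 : s + 1 ≤ 2 * i)
    (h2 : 13 * i + 2 ≤ 10 * s) (ε : ℝ) (hε : ε = (2 * (i : ℝ) - s) / (3 * s + i - 2))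
    (hT : 7 * ε ≤ 1 → Q 7 2 (-(7 * ε)))
    (hone : ∀ n s p, p ≤ -(2 * ε) → -1 ≤ p - 7 * ε → Q n s p → Q (n + 7) (s + 2) (p - 7 * ε))
    (hzero : ∀ n s p, -1 ≤ p → p + (1 - 4 * ε) ≤ -(2 * ε) → Q n s p →
      Q (n + 4) (s + 1) (p + (1 - 4 * ε)))
    (htwo : ∀ n s p n' s' p', -1 ≤ p → p ≤ -(2 * ε) → -1 ≤ p' → p' ≤ -(2 * ε) →
      -1 ≤ p + p' + (1 - 4 * ε) → p + p' + (1 - 4 * ε) ≤ -(2 * ε) → Q n s p → Q n' s' p' →
      Q (n + n' + 4) (s + s' + 1) (p + p' + (1 - 4 * ε)))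
    (hend : ∀ n s p, p ≤ -1 + 2 * ε → Q n s p → R (n + 4) (s + 1)) :
    R (3 * s + i) s := by
  obtain ⟨x, rfl⟩ : ∃ x, i = x + 2 := ⟨i - 2, by omega⟩
  obtain ⟨y, rfl⟩ : ∃ y, s = x + y + 3 := ⟨s - x - 3, by omega⟩
  have hM : (0 : ℝ) < 4 * x + 3 * y + 9 := by positivity
  have h := word Q ε x y (by omega) (by omega) (by
    rw [hε]
    push_cast
    have : (3 * ((x : ℝ) + y + 3) + (x + 2) - 2) = 4 * x + 3 * y + 9 := by ring
    rw [this, div_mul_cancel₀ _ hM.ne']
    ring) hT hone hzero htwo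
  have h3 := hend _ _ _ le_rfl h
  have e1 : 4 * x + 3 * y + 7 + 4 = 3 * (x + y + 3) + (x + 2) := by ring
  have e2 : x + y + 2 + 1 = x + y + 3 := by ring
  rwa [e1, e2] at h3

end Pool.Agent.TwoDens.K4N
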