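import Pool.Agent.K4N.Net

/-!
The start `K_5` with a pendant `K_4`, and the step adding a `K_5` with a pendant `K_4`.
-/

open Finset

namespace Pool.Agent.TwoDens.K4N

open Pool.Agent.TwoDens Pool.Agent.TwoDens.K3A.Gq Pool.Agent.TwoDens.K3S

/-- adjacency by a list of pairs -/
def lb (L : List (ℕ × ℕ)) (x y : Fin 7) : Bool :=
  L.any (fun p => (p.1 == x.val && p.2 == y.val) || (p.1 == y.val && p.2 == x.val))

/-- the start: `0, 1, 2` and the halves `3, 4` of a split vertex of a `K_5`, and `5, 6` -/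
def BT : SimpleGraph (Fin 7) where
  Adj x y := lb [(0, 1), (0, 2), (1, 2), (3, 0), (4, 1), (4, 2), (3, 5), (3, 6), (4, 5), (4, 6),
    (5, 6)] x y = true
  symm := ⟨by decide⟩
  loopless := ⟨by decide⟩

instance : DecidableRel BT.Adj := fun x y =>
  inferInstanceAs (Decidable (lb [(0, 1), (0, 2), (1, 2), (3, 0), (4, 1), (4, 2), (3, 5), (3, 6),
    (4, 5), (4, 6), (5, 6)] x y = true))

/-- the step: ports `0, 1`, a vertex `2`, the halves `3, 4` of a split vertex, and `5, 6` -/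
def B1 : SimpleGraph (Fin 7) where
  Adj x y := lb [(0, 2), (1, 2), (3, 0), (4, 1), (4, 2), (3, 5), (3, 6), (4, 5), (4, 6),
    (5, 6)] x y = true
  symm := ⟨by decide⟩
  loopless := ⟨by decide⟩

instance : DecidableRel B1.Adj := fun x y =>
  inferInstanceAs (Decidable (lb [(0, 2), (1, 2), (3, 0), (4, 1), (4, 2), (3, 5), (3, 6),
    (4, 5), (4, 6), (5, 6)] x y = true))

theorem tabT : ∀ S : Finset (Fin 7),
    (2 ≤ S.card → e2 BT S + 6 ≤ 4 * S.card) ∧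
    (1 ≤ S.card → e2 BT S + 2 * (S ∩ {0, 1}).card + 2 ≤ 4 * S.card) ∧
    (1 ≤ S.card → e2 BT S + 2 * (S ∩ {2, 3}).card + 2 ≤ 4 * S.card) ∧
    (e2 BT S + 2 * (S ∩ {0, 1}).card + 2 * (S ∩ {2, 3}).card ≤ 4 * S.card ∨
      (S.card = 7 ∧
        e2 BT S + 2 * (S ∩ {0, 1}).card + 2 * (S ∩ {2, 3}).card ≤ 4 * S.card + 2)) := by
  decide +kernel

theorem tabTa : ∀ S : Finset (Fin 7), (∀ x ∈ S, ∀ y ∈ S, ¬ BT.Adj x y) →
    S.card ≤ 2 ∧ (S ∩ {0, 1} = ∅ → S ∩ {2, 3} = ∅ → S.card ≤ 1) := by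
  decide +kernel

theorem indep_all {V : Type} {G : SimpleGraph V} {S : Finset V}
    (h : G.IsIndepSet (S : Set V)) : ∀ x ∈ S, ∀ y ∈ S, ¬ G.Adj x y := by
  intro x hx y hy hxy
  exact h (Finset.mem_coe.2 hx) (Finset.mem_coe.2 hy) hxy.ne hxy

/-- the start network -/
theorem nw_T {ε : ℝ} (hε : 0 ≤ ε) (h7 : 7 * ε ≤ 1) : Nw ε 7 2 (-7 * ε) := by
  refine ⟨Fin 7, inferInstance, inferInstance, BT, inferInstance, {0, 1}, {2, 3}, ?_, ?_, ?_, ?_,
    ?_, ?_, ?_⟩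
  · exact Fintype.card_fin 7
  · intro S hS
    have hS' : (2 : ℝ) ≤ S.card := by exact_mod_cast hS
    have hv := mul_le_mul_of_nonneg_left hS' hε
    have h6 : (e2 BT S : ℝ) + 6 ≤ 4 * S.card := by exact_mod_cast (tabT S).1 hS
    unfold fv
    linarith
  · intro S hS
    have hS' : (1 : ℝ) ≤ S.card := by exact_mod_cast hS
    have hv := mul_le_mul_of_nonneg_left hS' hε
    have h6 : (e2 BT S : ℝ) + 2 * ((S ∩ {0, 1}).card : ℝ) + 2 ≤ 4 * S.card := by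
      exact_mod_cast (tabT S).2.1 hS
    unfold fv
    linarith
  · intro S hS
    have hS' : (1 : ℝ) ≤ S.card := by exact_mod_cast hS
    have hv := mul_le_mul_of_nonneg_left hS' hε
    have h6 : (e2 BT S : ℝ) + 2 * ((S ∩ {2, 3}).card : ℝ) + 2 ≤ 4 * S.card := by
      exact_mod_cast (tabT S).2.2.1 hS
    unfold fv
    linarith
  · intro S
    have hS' : (0 : ℝ) ≤ S.card := Nat.cast_nonneg _
    have hv := mul_nonneg hε hS'
    unfold fv
    rcases (tabT S).2.2.2 with h4 | ⟨h4, h5⟩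
    · have h6 : (e2 BT S : ℝ) + 2 * ((S ∩ {0, 1}).card : ℝ) +
          2 * ((S ∩ {2, 3}).card : ℝ) ≤ 4 * S.card := by exact_mod_cast h4
      linarith
    · have h6 : (e2 BT S : ℝ) + 2 * ((S ∩ {0, 1}).card : ℝ) +
          2 * ((S ∩ {2, 3}).card : ℝ) ≤ 4 * S.card + 2 := by exact_mod_cast h5
      have h8 : (S.card : ℝ) = 7 := by exact_mod_cast h4
      rw [h8] at h6 ⊢
      linarith
  · intro S hI
    exact (tabTa S (indep_all hI)).1
  · intro S hI h1 h2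
    have := (tabTa S (indep_all hI)).2 h1 h2
    omega

theorem tab1 : ∀ S : Finset (Fin 7), ¬ (0 ∈ S ∧ 1 ∈ S) →
    (2 ≤ S.card → e2 B1 S + 6 ≤ 4 * S.card) ∧
    (1 ≤ S.card → e2 B1 S + 2 * (S ∩ {0, 3}).card + 2 ≤ 4 * S.card) ∧
    (1 ≤ S.card → e2 B1 S + 2 * (S ∩ {1, 2}).card + 2 ≤ 4 * S.card) ∧
    e2 B1 S + 2 * (S ∩ {0, 3}).card + 2 * (S ∩ {1, 2}).card ≤ 4 * S.card := by
  decide +kernel

theorem tab1b : ∀ S : Finset (Fin 7), (0 ∈ S ∧ 1 ∈ S) → 2 ≤ S.card ∧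
    e2 B1 S + 8 ≤ 4 * S.card ∧
    e2 B1 S + 2 * (S ∩ {0, 3}).card + 4 ≤ 4 * S.card ∧
    e2 B1 S + 2 * (S ∩ {1, 2}).card + 4 ≤ 4 * S.card ∧
    (e2 B1 S + 2 * (S ∩ {0, 3}).card + 2 * (S ∩ {1, 2}).card + 2 ≤ 4 * S.card ∨
      (S.card = 7 ∧
        e2 B1 S + 2 * (S ∩ {0, 3}).card + 2 * (S ∩ {1, 2}).card ≤ 4 * S.card)) := by
  decide +kernel

theorem tab1c : ∀ S : Finset (Fin 7), (∀ x ∈ S, ∀ y ∈ S, ¬ B1.Adj x y) →
    S.card ≤ 2 + (if (0 : Fin 7) ∈ S ∧ (1 : Fin 7) ∈ S then 1 else 0) ∧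
    (S ∩ {0, 3} = ∅ → S ∩ {1, 2} = ∅ → S.card ≤ 1) := by
  decide +kernel

/-- a `K_5` with a pendant `K_4` -/
theorem nw_one {ε : ℝ} {n s : ℕ} {p : ℝ} (hε : 0 ≤ ε) (h7 : 7 * ε ≤ 1) (h : Nw ε n s p)
    (h1 : p ≤ -2 * ε) (h2 : -1 ≤ p - 7 * ε) : Nw ε (n + 7) (s + 2) (p - 7 * ε) := by
  have h3 : -1 ≤ p := by linarith
  refine glue_one B1 hε h3 h (p1 := 0) (p2 := 1) (by decide) {0, 3} {1, 2} ?_ ?_ ?_ ?_ ?_ ?_ ?_
  · rw [Fintype.card_fin]
    omega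
  · intro S hS
    have hS' : (2 : ℝ) ≤ S.card := by exact_mod_cast hS
    have hv := mul_le_mul_of_nonneg_left hS' hε
    unfold fv
    split_ifs with h
    · have h6 : (e2 B1 S : ℝ) + 8 ≤ 4 * S.card := by exact_mod_cast (tab1b S h).2.1
      linarith
    · have h6 : (e2 B1 S : ℝ) + 6 ≤ 4 * S.card := by exact_mod_cast (tab1 S h).1 hS
      linarith
  · intro S hS
    have hS' : (1 : ℝ) ≤ S.card := by exact_mod_cast hS
    have hv := mul_le_mul_of_nonneg_left hS' hε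
    unfold fv
    split_ifs with h
    · have h6 : (e2 B1 S : ℝ) + 2 * ((S ∩ {0, 3}).card : ℝ) + 4 ≤ 4 * S.card := by
        exact_mod_cast (tab1b S h).2.2.1
      linarith
    · have h6 : (e2 B1 S : ℝ) + 2 * ((S ∩ {0, 3}).card : ℝ) + 2 ≤ 4 * S.card := by
        exact_mod_cast (tab1 S h).2.1 hS
      linarith
  · intro S hS
    have hS' : (1 : ℝ) ≤ S.card := by exact_mod_cast hS
    have hv := mul_le_mul_of_nonneg_left hS' hε
    unfold fv
    split_ifs with h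
    · have h6 : (e2 B1 S : ℝ) + 2 * ((S ∩ {1, 2}).card : ℝ) + 4 ≤ 4 * S.card := by
        exact_mod_cast (tab1b S h).2.2.2.1
      linarith
    · have h6 : (e2 B1 S : ℝ) + 2 * ((S ∩ {1, 2}).card : ℝ) + 2 ≤ 4 * S.card := by
        exact_mod_cast (tab1 S h).2.2.1 hS
      linarith
  · intro S
    have hS' : (0 : ℝ) ≤ S.card := Nat.cast_nonneg _
    have hv := mul_nonneg hε hS'
    unfold fv
    split_ifs with h
    · have h0 := (tab1b S h).1
      have h0' : (2 : ℝ) ≤ S.card := by exact_mod_cast h0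
      have hv' := mul_le_mul_of_nonneg_left h0' hε
      rcases (tab1b S h).2.2.2.2 with h4 | ⟨h4, h5⟩
      · have h6 : (e2 B1 S : ℝ) + 2 * ((S ∩ {0, 3}).card : ℝ) +
            2 * ((S ∩ {1, 2}).card : ℝ) + 2 ≤ 4 * S.card := by exact_mod_cast h4
        linarith
      · have h6 : (e2 B1 S : ℝ) + 2 * ((S ∩ {0, 3}).card : ℝ) +
            2 * ((S ∩ {1, 2}).card : ℝ) ≤ 4 * S.card := by exact_mod_cast h5
        have h8 : (S.card : ℝ) = 7 := by exact_mod_cast h4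
        rw [h8] at h6 ⊢
        linarith
    · have h6 : (e2 B1 S : ℝ) + 2 * ((S ∩ {0, 3}).card : ℝ) +
          2 * ((S ∩ {1, 2}).card : ℝ) ≤ 4 * S.card := by exact_mod_cast (tab1 S h).2.2.2
      linarith
  · intro S hS
    have h6 := (tab1c S hS).1
    omega
  · intro S hS hR1 hR2
    have h6 := (tab1c S hS).2 hR1 hR2
    omega

end Pool.Agent.TwoDens.K4N
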