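import Pool.Agent.K4N.Net

/-!
The step gluing two networks to a `K_5` with two deleted edges.
-/

open Finset

namespace Pool.Agent.TwoDens.K4N

open Pool.Agent.TwoDens Pool.Agent.TwoDens.K3A.Gq Pool.Agent.TwoDens.K3S

/-- `K_4` minus the edges `01` and `23` -/
def C4 : SimpleGraph (Fin 4) where
  Adj x y := x ≠ y ∧ x.val + y.val ≠ 1 ∧ x.val + y.val ≠ 5
  symm := ⟨by decide⟩
  loopless := ⟨by decide⟩

instance : DecidableRel C4.Adj := fun x y =>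
  inferInstanceAs (Decidable (x ≠ y ∧ x.val + y.val ≠ 1 ∧ x.val + y.val ≠ 5))

/-- the table, both pairs -/
theorem tabC1 : ∀ S : Finset (Fin 4), (0 ∈ S ∧ 1 ∈ S) → (2 ∈ S ∧ 3 ∈ S) →
    e2 C4 S = 8 ∧ S.card = 4 ∧ (S ∩ {0, 2}).card = 2 ∧ (S ∩ {1, 3}).card = 2 := by
  decide +kernel

/-- the table, the first pair -/
theorem tabC2 : ∀ S : Finset (Fin 4), (0 ∈ S ∧ 1 ∈ S) → ¬ (2 ∈ S ∧ 3 ∈ S) →
    2 ≤ S.card ∧ e2 C4 S + 8 ≤ 4 * S.card ∧
      e2 C4 S + 2 * (S ∩ {0, 2}).card + 4 ≤ 4 * S.card ∧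
      e2 C4 S + 2 * (S ∩ {1, 3}).card + 4 ≤ 4 * S.card ∧
      e2 C4 S + 2 * (S ∩ {0, 2}).card + 2 * (S ∩ {1, 3}).card + 2 ≤ 4 * S.card := by
  decide +kernel

/-- the table, the second pair -/
theorem tabC3 : ∀ S : Finset (Fin 4), ¬ (0 ∈ S ∧ 1 ∈ S) → (2 ∈ S ∧ 3 ∈ S) →
    2 ≤ S.card ∧ e2 C4 S + 8 ≤ 4 * S.card ∧
      e2 C4 S + 2 * (S ∩ {0, 2}).card + 4 ≤ 4 * S.card ∧
      e2 C4 S + 2 * (S ∩ {1, 3}).card + 4 ≤ 4 * S.card ∧
      e2 C4 S + 2 * (S ∩ {0, 2}).card + 2 * (S ∩ {1, 3}).card + 2 ≤ 4 * S.card := by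
  decide +kernel

/-- the table, no pair -/
theorem tabC4 : ∀ S : Finset (Fin 4), ¬ (0 ∈ S ∧ 1 ∈ S) → ¬ (2 ∈ S ∧ 3 ∈ S) →
    (2 ≤ S.card → e2 C4 S + 6 ≤ 4 * S.card) ∧
    (1 ≤ S.card → e2 C4 S + 2 * (S ∩ {0, 2}).card + 2 ≤ 4 * S.card ∧
      e2 C4 S + 2 * (S ∩ {1, 3}).card + 2 ≤ 4 * S.card) ∧
    e2 C4 S + 2 * (S ∩ {0, 2}).card + 2 * (S ∩ {1, 3}).card ≤ 4 * S.card := by
  decide +kernel

theorem tabCi : ∀ S : Finset (Fin 4), (∀ x ∈ S, ∀ y ∈ S, ¬ C4.Adj x y) →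
    S.card ≤ 1 + (if (0 : Fin 4) ∈ S ∧ (1 : Fin 4) ∈ S then 1 else 0) +
      (if (2 : Fin 4) ∈ S ∧ (3 : Fin 4) ∈ S then 1 else 0) ∧
    (S ∩ {0, 2} = ∅ → S ∩ {1, 3} = ∅ → S = ∅) := by
  decide +kernel

/-- weight of a pair -/
noncomputable def wt (p : ℝ) (a b : Fin 4) (S : Finset (Fin 4)) : ℝ :=
  if a ∈ S ∧ b ∈ S then 1 + p else 0

section Real

variable {ε p p' : ℝ} (hε : 0 ≤ ε) (h7 : 4 * ε ≤ 1) (h1 : -1 ≤ p) (h2 : p ≤ -2 * ε)
  (h3 : -1 ≤ p') (h4 : p' ≤ -2 * ε) (h5 : -1 ≤ p + p' + 1 - 4 * ε)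
  (h6 : p + p' + 1 - 4 * ε ≤ -2 * ε)

include hε h2 h4 h6 in
theorem c4_a (S : Finset (Fin 4)) (hS : 2 ≤ S.card) :
    fv ε C4 S + wt p' 2 3 S + wt p 0 1 S ≤ -3 - 2 * ε := by
  have hS' : (2 : ℝ) ≤ S.card := by exact_mod_cast hS
  have hv := mul_le_mul_of_nonneg_left hS' hε
  unfold fv wt
  by_cases ha : 0 ∈ S ∧ 1 ∈ S
  · by_cases hb : 2 ∈ S ∧ 3 ∈ S
    · rw [if_pos ha, if_pos hb, (tabC1 S ha hb).1, (tabC1 S ha hb).2.1]
      push_cast
      linarith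
    · rw [if_pos ha, if_neg hb]
      have h8 : (e2 C4 S : ℝ) + 8 ≤ 4 * S.card := by exact_mod_cast (tabC2 S ha hb).2.1
      linarith
  · by_cases hb : 2 ∈ S ∧ 3 ∈ S
    · rw [if_neg ha, if_pos hb]
      have h8 : (e2 C4 S : ℝ) + 8 ≤ 4 * S.card := by exact_mod_cast (tabC3 S ha hb).2.1
      linarith
    · rw [if_neg ha, if_neg hb]
      have h8 : (e2 C4 S : ℝ) + 6 ≤ 4 * S.card := by exact_mod_cast (tabC4 S ha hb).1 hS
      linarith

include hε h2 h4 h6 in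
theorem c4_b (S : Finset (Fin 4)) (hS : 1 ≤ S.card) :
    fv ε C4 S + ((S ∩ {0, 2}).card : ℝ) + wt p' 2 3 S + wt p 0 1 S ≤ -1 - ε ∧
    fv ε C4 S + ((S ∩ {1, 3}).card : ℝ) + wt p' 2 3 S + wt p 0 1 S ≤ -1 - ε := by
  have hS' : (1 : ℝ) ≤ S.card := by exact_mod_cast hS
  have hv := mul_le_mul_of_nonneg_left hS' hε
  unfold fv wt
  by_cases ha : 0 ∈ S ∧ 1 ∈ S
  · by_cases hb : 2 ∈ S ∧ 3 ∈ S
    · rw [if_pos ha, if_pos hb, (tabC1 S ha hb).1, (tabC1 S ha hb).2.1, (tabC1 S ha hb).2.2.1,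
        (tabC1 S ha hb).2.2.2]
      push_cast
      constructor <;> linarith
    · rw [if_pos ha, if_neg hb]
      obtain ⟨_, _, h8, h9, _⟩ := tabC2 S ha hb
      have h8' : (e2 C4 S : ℝ) + 2 * ((S ∩ {0, 2}).card : ℝ) + 4 ≤ 4 * S.card := by
        exact_mod_cast h8
      have h9' : (e2 C4 S : ℝ) + 2 * ((S ∩ {1, 3}).card : ℝ) + 4 ≤ 4 * S.card := by
        exact_mod_cast h9
      constructor <;> linarith
  · by_cases hb : 2 ∈ S ∧ 3 ∈ S
    · rw [if_neg ha, if_pos hb]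
      obtain ⟨_, _, h8, h9, _⟩ := tabC3 S ha hb
      have h8' : (e2 C4 S : ℝ) + 2 * ((S ∩ {0, 2}).card : ℝ) + 4 ≤ 4 * S.card := by
        exact_mod_cast h8
      have h9' : (e2 C4 S : ℝ) + 2 * ((S ∩ {1, 3}).card : ℝ) + 4 ≤ 4 * S.card := by
        exact_mod_cast h9
      constructor <;> linarith
    · rw [if_neg ha, if_neg hb]
      obtain ⟨h8, h9⟩ := (tabC4 S ha hb).2.1 hS
      have h8' : (e2 C4 S : ℝ) + 2 * ((S ∩ {0, 2}).card : ℝ) + 2 ≤ 4 * S.card := by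
        exact_mod_cast h8
      have h9' : (e2 C4 S : ℝ) + 2 * ((S ∩ {1, 3}).card : ℝ) + 2 ≤ 4 * S.card := by
        exact_mod_cast h9
      constructor <;> linarith

include hε h7 h1 h3 h5 in
theorem c4_c (S : Finset (Fin 4)) :
    fv ε C4 S + ((S ∩ {0, 2}).card : ℝ) + ((S ∩ {1, 3}).card : ℝ) + wt p' 2 3 S +
      wt p 0 1 S ≤ 1 + (p + p' + 1 - 4 * ε) := by
  have hS' : (0 : ℝ) ≤ S.card := Nat.cast_nonneg _
  have hv := mul_nonneg hε hS'
  unfold fv wt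
  by_cases ha : 0 ∈ S ∧ 1 ∈ S
  · by_cases hb : 2 ∈ S ∧ 3 ∈ S
    · rw [if_pos ha, if_pos hb, (tabC1 S ha hb).1, (tabC1 S ha hb).2.1, (tabC1 S ha hb).2.2.1,
        (tabC1 S ha hb).2.2.2]
      push_cast
      linarith
    · rw [if_pos ha, if_neg hb]
      obtain ⟨_, _, _, _, h8⟩ := tabC2 S ha hb
      have h8' : (e2 C4 S : ℝ) + 2 * ((S ∩ {0, 2}).card : ℝ) + 2 * ((S ∩ {1, 3}).card : ℝ) +
        2 ≤ 4 * S.card := by exact_mod_cast h8
      linarith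
  · by_cases hb : 2 ∈ S ∧ 3 ∈ S
    · rw [if_neg ha, if_pos hb]
      obtain ⟨_, _, _, _, h8⟩ := tabC3 S ha hb
      have h8' : (e2 C4 S : ℝ) + 2 * ((S ∩ {0, 2}).card : ℝ) + 2 * ((S ∩ {1, 3}).card : ℝ) +
        2 ≤ 4 * S.card := by exact_mod_cast h8
      linarith
    · rw [if_neg ha, if_neg hb]
      have h8' : (e2 C4 S : ℝ) + 2 * ((S ∩ {0, 2}).card : ℝ) + 2 * ((S ∩ {1, 3}).card : ℝ) ≤
        4 * S.card := by exact_mod_cast (tabC4 S ha hb).2.2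
      linarith

end Real

/-- a `K_5` with two networks -/
theorem nw_two {ε : ℝ} {n s n' s' : ℕ} {p p' : ℝ} (hε : 0 ≤ ε) (h7 : 4 * ε ≤ 1)
    (h : Nw ε n s p) (h' : Nw ε n' s' p') (h1 : -1 ≤ p) (h2 : p ≤ -2 * ε) (h3 : -1 ≤ p')
    (h4 : p' ≤ -2 * ε) (h5 : -1 ≤ p + p' + 1 - 4 * ε) (h6 : p + p' + 1 - 4 * ε ≤ -2 * ε) :
    Nw ε (n + n' + 4) (s + s' + 1) (p + p' + 1 - 4 * ε) := by
  obtain ⟨I, _, _, A, _, T1, T2, hA⟩ := h'
  have hne : (2 : Fin 4) ≠ 3 := by decide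
  have hw0 : ∀ S1 : Finset (Fin 4), S1.card ≤ 1 → wt p 0 1 S1 = 0 ∧ ¬ (2 ∈ S1 ∧ 3 ∈ S1) := by
    intro S1 hS
    constructor
    · unfold wt
      rw [if_neg]
      intro hh
      have := Finset.card_le_one.1 hS 0 hh.1 1 hh.2
      exact absurd this (by decide)
    · intro hh
      have := Finset.card_le_one.1 hS 2 hh.1 3 hh.2
      exact absurd this (by decide)
  have hwt : ∀ (S1 : Finset (Fin 4)) (S2 : Finset I),
      (if (Sum.inl 0 : Fin 4 ⊕ I) ∈ S1.disjSum S2 ∧ (Sum.inl 1 : Fin 4 ⊕ I) ∈ S1.disjSum S2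
        then 1 + p else 0) = wt p 0 1 S1 := by
    intro S1 S2
    unfold wt
    simp only [Finset.inl_mem_disjSum]
  refine glue_one (glue C4 2 3 A T1 T2) hε h1 h (p1 := Sum.inl 0) (p2 := Sum.inl 1) (by
    intro hh
    exact absurd (Sum.inl_injective hh) (by decide)) (Finset.disjSum {0, 2} ∅)
    (Finset.disjSum {1, 3} ∅) ?_ ?_ ?_ ?_ ?_ ?_ ?_
  · rw [Fintype.card_sum, Fintype.card_fin, hA.1]
    omega
  · intro S hS
    obtain ⟨S1, S2, rfl⟩ := exists_parts S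
    rw [hwt, fv_glue ε C4 hne]
    rw [Finset.card_disjSum] at hS
    rcases Nat.lt_or_ge S1.card 2 with h8 | h8
    · obtain ⟨hw1, hw2⟩ := hw0 S1 (by omega)
      rw [hw1]
      rcases Nat.lt_or_ge S1.card 1 with h9 | h9
      · have h10 : S1 = ∅ := by
          rw [← Finset.card_eq_zero]
          omega
        subst h10
        rw [vl_empty, fv_empty]
        have h11 := hA.2.1 S2 (by
          rw [Finset.card_empty] at hS
          omega)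
        linarith
      · have h10 := hA.vl_ne hε (S1 := S1) (p1 := 2) (p2 := 3) hw2 (S2 := S2) (by omega)
        rw [fv_one ε C4 (by omega)]
        linarith
    · have h9 := c4_a hε h2 h4 h6 S1 h8
      have h10 := hA.vl_le hε h3 2 3 S1 S2
      unfold wt at h9 ⊢
      linarith
  · intro S hS
    obtain ⟨S1, S2, rfl⟩ := exists_parts S
    rw [hwt, fv_glue ε C4 hne, inter_map, Finset.card_disjSum, Finset.card_empty, Nat.add_zero]
    rw [Finset.card_disjSum] at hS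
    rcases Nat.lt_or_ge S1.card 1 with h9 | h9
    · obtain ⟨hw1, hw2⟩ := hw0 S1 (by omega)
      have h10 : S1 = ∅ := by
        rw [← Finset.card_eq_zero]
        omega
      rw [hw1]
      subst h10
      rw [vl_empty, fv_empty, Finset.empty_inter, Finset.card_empty]
      have h11 := hA.ne hε (S := S2) (by
        rw [Finset.card_empty] at hS
        omega)
      push_cast
      linarith
    · have h8 := (c4_b hε h2 h4 h6 S1 h9).1
      have h10 := hA.vl_le hε h3 2 3 S1 S2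
      unfold wt at h8 ⊢
      linarith
  · intro S hS
    obtain ⟨S1, S2, rfl⟩ := exists_parts S
    rw [hwt, fv_glue ε C4 hne, inter_map, Finset.card_disjSum, Finset.card_empty, Nat.add_zero]
    rw [Finset.card_disjSum] at hS
    rcases Nat.lt_or_ge S1.card 1 with h9 | h9
    · obtain ⟨hw1, hw2⟩ := hw0 S1 (by omega)
      have h10 : S1 = ∅ := by
        rw [← Finset.card_eq_zero]
        omega
      rw [hw1]
      subst h10
      rw [vl_empty, fv_empty, Finset.empty_inter, Finset.card_empty]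
      have h11 := hA.ne hε (S := S2) (by
        rw [Finset.card_empty] at hS
        omega)
      push_cast
      linarith
    · have h8 := (c4_b hε h2 h4 h6 S1 h9).2
      have h10 := hA.vl_le hε h3 2 3 S1 S2
      unfold wt at h8 ⊢
      linarith
  · intro S
    obtain ⟨S1, S2, rfl⟩ := exists_parts S
    rw [hwt, fv_glue ε C4 hne, inter_map, inter_map, Finset.card_disjSum, Finset.card_disjSum,
      Finset.card_empty, Nat.add_zero, Nat.add_zero]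
    have h8 := c4_c hε h7 h1 h3 h5 S1
    have h10 := hA.vl_le hε h3 2 3 S1 S2
    unfold wt at h8 ⊢
    linarith
  · intro S hS
    obtain ⟨S1, S2, rfl⟩ := exists_parts S
    have hI : (glue C4 2 3 A T1 T2).IsIndepSet
        ((S1.disjSum S2 : Finset (Fin 4 ⊕ I)) : Set (Fin 4 ⊕ I)) := by
      intro x hx y hy _
      exact hS x (Finset.mem_coe.1 hx) y (Finset.mem_coe.1 hy)
    obtain ⟨i1, i2, i3, i4⟩ := indep_glue hI
    have h8 := (tabCi S1 i1).1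
    rw [Finset.card_disjSum]
    simp only [Finset.inl_mem_disjSum]
    obtain ⟨_, _, _, _, _, h9, h10⟩ := hA
    by_cases hb : 2 ∈ S1 ∧ 3 ∈ S1
    · rw [if_pos hb] at h8
      have h11 := h10 S2 i2 (i3 hb.1) (i4 hb.2)
      omega
    · rw [if_neg hb] at h8
      have h11 := h9 S2 i2
      omega
  · intro S hS hR1 hR2
    obtain ⟨S1, S2, rfl⟩ := exists_parts S
    have hI : (glue C4 2 3 A T1 T2).IsIndepSet
        ((S1.disjSum S2 : Finset (Fin 4 ⊕ I)) : Set (Fin 4 ⊕ I)) := by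
      intro x hx y hy _
      exact hS x (Finset.mem_coe.1 hx) y (Finset.mem_coe.1 hy)
    obtain ⟨i1, i2, i3, i4⟩ := indep_glue hI
    rw [inter_map, ← Finset.card_eq_zero, Finset.card_disjSum, Finset.card_empty,
      Nat.add_zero, Finset.card_eq_zero] at hR1 hR2
    have h8 := (tabCi S1 i1).2 hR1 hR2
    subst h8
    obtain ⟨_, _, _, _, _, h9, h10⟩ := hA
    have h11 := h9 S2 i2
    rw [Finset.card_disjSum, Finset.card_empty]
    omega

end Pool.Agent.TwoDens.K4N
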