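import Pool.Agent.K4N.Seven
import Pool.Agent.K4N.TwoN
import Pool.Agent.K4N.Order

/-!
The upper bound for `M (3 s + i, s + 1)` in the range `s < 2 i`, `13 i + 2 ≤ 10 s`.
-/

namespace Pool.Agent.TwoDens.K4N

open Pool.Agent.TwoDens Pool.Agent.TwoDens.K3S

/-- the piece -/
theorem piece (s i : ℕ) (h1 : s + 1 ≤ 2 * i) (h2 : 13 * i + 2 ≤ 10 * s) :
    Pc (2 + (2 * (i : ℝ) - s) / (3 * s + i - 2)) (3 * s + i) s := by
  obtain ⟨ε, hε⟩ : ∃ ε : ℝ, ε = (2 * (i : ℝ) - s) / (3 * s + i - 2) := ⟨_, rfl⟩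
  rw [← hε]
  have h1' : (s : ℝ) + 1 ≤ 2 * i := by exact_mod_cast h1
  have h2' : 13 * (i : ℝ) + 2 ≤ 10 * s := by exact_mod_cast h2
  have hpos : (0 : ℝ) < 3 * s + i - 2 := by
    have : (1 : ℝ) ≤ s := by exact_mod_cast (show 1 ≤ s by omega)
    have : (1 : ℝ) ≤ i := by exact_mod_cast (show 1 ≤ i by omega)
    linarith
  have h0 : 0 ≤ ε := by
    rw [hε]
    exact div_nonneg (by linarith) hpos.le
  have h7 : 7 * ε ≤ 1 := by
    have h3 : ε ≤ 1 / 7 := by
      rw [hε, div_le_div_iff₀ hpos (by norm_num)]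
      linarith
    linarith
  refine word' (fun n s p => Nw ε n s p ∧ -1 ≤ p) (fun n a => Pc (2 + ε) n a) s i h1 h2 ε hε
    ?_ ?_ ?_ ?_ ?_
  · intro _
    have h3 := nw_T h0 h7
    rw [neg_mul] at h3
    exact ⟨h3, by linarith⟩
  · intro n s p h3 h4 h5
    exact ⟨nw_one h0 h7 h5.1 (by linarith) h4, h4⟩
  · intro n s p h3 h4 h5
    have h6 := nw_zero h0 (by linarith) h5.1 h3 (by linarith)
    have e : p + 1 - 4 * ε = p + (1 - 4 * ε) := by ring
    rw [e] at h6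
    exact ⟨h6, by linarith⟩
  · intro n s p n' s' p' h3 h4 h5 h6 h8 h9 h10 h11
    have h12 := nw_two h0 (by linarith) h10.1 h11.1 h3 (by linarith) h5 (by linarith) (by linarith)
      (by linarith)
    have e : p + p' + 1 - 4 * ε = p + p' + (1 - 4 * ε) := by ring
    rw [e] at h12
    exact ⟨h12, h8⟩
  · intro n s p h3 h4
    exact nw_end h0 h4.1 h4.2 h3 (by linarith)

/-- the upper bound above the plateau for `3 s + i` vertices -/
theorem upper (s i : ℕ) (h1 : s + 1 ≤ 2 * i) (h2 : 13 * i + 2 ≤ 10 * s) :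
    minTwoDensity (3 * s + i) (s + 1) ≤ 2 + (2 * (i : ℝ) - s) / (3 * s + i - 2) := by
  have h1' : (s : ℝ) + 1 ≤ 2 * i := by exact_mod_cast h1
  have hpos : (0 : ℝ) < 3 * s + i - 2 := by
    have : (1 : ℝ) ≤ s := by exact_mod_cast (show 1 ≤ s by omega)
    have : (1 : ℝ) ≤ i := by exact_mod_cast (show 1 ≤ i by omega)
    linarith
  have h3 : 0 ≤ (2 * (i : ℝ) - s) / (3 * s + i - 2) := div_nonneg (by linarith) hpos.le
  exact (piece s i h1 h2).min (by linarith) le_rfl (Nat.lt_succ_self s)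

end Pool.Agent.TwoDens.K4N
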