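import Pool.Agent.K4N.Word
import Pool.Agent.K4N.Eleven

/-!
The upper bound for `M (3 s + i, s + 1)` in the range `9 s ≤ 11 i + 2`, `20 i + 4 ≤ 17 s`.
-/

namespace Pool.Agent.TwoDens.K4N

open Pool.Agent.TwoDens Pool.Agent.TwoDens.K3S

/-- the word: bare cells and one kind of pendant paths -/
theorem word2 {ε : ℝ} (x y : ℕ) (h1 : 9 * y + 3 ≤ 2 * x) (h2 : 3 * x ≤ 17 * y + 7)
    (hε : ε * (4 * x + 3 * y + 9) = x - y + 1) : Nw ε (4 * x + 3 * y + 7) (x + y + 2)
      (-1 + 2 * ε) := by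
  have hM : (0 : ℝ) < 4 * x + 3 * y + 9 := by positivity
  have h1' : 9 * (y : ℝ) + 3 ≤ 2 * x := by exact_mod_cast h1
  have h2' : 3 * (x : ℝ) ≤ 17 * y + 7 := by exact_mod_cast h2
  have hle : ∀ a b : ℝ, a * (x - y + 1) ≤ b * (4 * x + 3 * y + 9) → a * ε ≤ b := by
    intro a b h
    rw [← hε, ← mul_assoc] at h
    exact le_of_mul_le_mul_right h hM
  have hge : ∀ a b : ℝ, b * (4 * x + 3 * y + 9) ≤ a * (x - y + 1) → b ≤ a * ε := by
    intro a b h
    rw [← hε, ← mul_assoc] at h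
    exact le_of_mul_le_mul_right h hM
  have h6 : 1 ≤ 6 * ε := hge 6 1 (by linarith)
  have h11 : 11 * ε ≤ 2 := hle 11 2 (by linarith)
  have h0 : 0 ≤ ε := by linarith
  have h4 : 4 * ε ≤ 1 := by linarith
  have hP := nw_path h6 h11
  have stepU : ∀ n s p, -1 ≤ p → p ≤ -(2 * ε) → p + (1 - 4 * ε) ≤ -(2 * ε) → Nw ε n s p →
      Nw ε (n + 4) (s + 1) (p + (1 - 4 * ε)) := by
    intro n s p h3 _ h5 h
    have h7 := nw_zero h0 h4 h h3 (by linarith)
    have e : p + 1 - 4 * ε = p + (1 - 4 * ε) := by ring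
    rwa [e] at h7
  have h3c : Nw ε 15 4 (2 - 15 * ε) := by
    have h7 := stepU 11 3 (1 - 11 * ε) (by linarith) (by linarith) (by linarith) hP
    have e : 1 - 11 * ε + (1 - 4 * ε) = 2 - 15 * ε := by ring
    rwa [e] at h7
  by_cases c : 5 * x ≤ 26 * y + 10
  · have c' : 5 * (x : ℝ) ≤ 26 * y + 10 := by exact_mod_cast c
    have h17 : 17 * ε ≤ 3 := hle 17 3 (by linarith)
    obtain ⟨A, rfl⟩ : ∃ A, x = 4 * y + 1 + A := ⟨x - 4 * y - 1, by omega⟩
    push_cast at hε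
    have hend : (1 - 11 * ε) + (A : ℝ) * (1 - 4 * ε) - (y : ℝ) * (19 * ε - 3) = -1 + 2 * ε := by
      linear_combination -hε
    have h := order (fun n s p => Nw ε n s p) (lo := -1) (hi := -(2 * ε)) (u := 1 - 4 * ε)
      (d := 19 * ε - 3) (nu := 4) (su := 1) (nd := 19) (sd := 5) (by linarith) (by linarith)
      (by linarith) stepU
      (fun n s p h3 h5 h7 h => by
        have h8 := nw_two h0 h4 h h3c h3 (by linarith) (by linarith) (by linarith)
          (by linarith) (by linarith)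
        have e : p + (2 - 15 * ε) + 1 - 4 * ε = p - (19 * ε - 3) := by ring
        rw [e] at h8
        exact h8)
      (A + y) A y rfl 11 3 (1 - 11 * ε) (by linarith) (by linarith)
      (by rw [hend]; linarith) (by rw [hend]; linarith) hP
    rw [hend] at h
    have e1 : 11 + A * 4 + y * 19 = 4 * (4 * y + 1 + A) + 3 * y + 7 := by ring
    have e2 : 3 + A * 1 + y * 5 = 4 * y + 1 + A + y + 2 := by ring
    rwa [e1, e2] at h
  · have c' : 26 * (y : ℝ) + 10 ≤ 5 * x := by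
      exact_mod_cast (show 26 * y + 10 ≤ 5 * x by omega)
    have h17 : 3 ≤ 17 * ε := hge 17 3 (by linarith)
    have h4c : Nw ε 19 5 (3 - 19 * ε) := by
      have h7 := stepU 15 4 (2 - 15 * ε) (by linarith) (by linarith) (by linarith) h3c
      have e : 2 - 15 * ε + (1 - 4 * ε) = 3 - 19 * ε := by ring
      rwa [e] at h7
    obtain ⟨A, rfl⟩ : ∃ A, x = 5 * y + 1 + A := ⟨x - 5 * y - 1, by omega⟩
    push_cast at hε
    have hend : (1 - 11 * ε) + (A : ℝ) * (1 - 4 * ε) - (y : ℝ) * (23 * ε - 4) = -1 + 2 * ε := by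
      linear_combination -hε
    have h := order (fun n s p => Nw ε n s p) (lo := -1) (hi := -(2 * ε)) (u := 1 - 4 * ε)
      (d := 23 * ε - 4) (nu := 4) (su := 1) (nd := 23) (sd := 6) (by linarith) (by linarith)
      (by linarith) stepU
      (fun n s p h3 h5 h7 h => by
        have h8 := nw_two h0 h4 h h4c h3 (by linarith) (by linarith) (by linarith)
          (by linarith) (by linarith)
        have e : p + (3 - 19 * ε) + 1 - 4 * ε = p - (23 * ε - 4) := by ring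
        rw [e] at h8
        exact h8)
      (A + y) A y rfl 11 3 (1 - 11 * ε) (by linarith) (by linarith)
      (by rw [hend]; linarith) (by rw [hend]; linarith) hP
    rw [hend] at h
    have e1 : 11 + A * 4 + y * 23 = 4 * (5 * y + 1 + A) + 3 * y + 7 := by ring
    have e2 : 3 + A * 1 + y * 6 = 5 * y + 1 + A + y + 2 := by ring
    rwa [e1, e2] at h

/-- the upper bound in the second range -/
theorem upper2 (s i : ℕ) (h1 : 9 * s ≤ 11 * i + 2) (h2 : 20 * i + 4 ≤ 17 * s) :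
    minTwoDensity (3 * s + i) (s + 1) ≤ 2 + (2 * (i : ℝ) - s) / (3 * s + i - 2) := by
  have hi : 2 ≤ i := by
    rcases Nat.lt_or_ge i 2 with h | h
    · exfalso
      interval_cases i <;> omega
    · exact h
  obtain ⟨x, rfl⟩ : ∃ x, i = x + 2 := ⟨i - 2, by omega⟩
  obtain ⟨y, rfl⟩ : ∃ y, s = x + y + 3 := ⟨s - x - 3, by omega⟩
  have hM : (0 : ℝ) < 4 * x + 3 * y + 9 := by positivity
  have h1' : 9 * y + 3 ≤ 2 * x := by omega
  have h2' : 3 * x ≤ 17 * y + 7 := by omega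
  obtain ⟨ε, hε⟩ : ∃ ε : ℝ, ε = ((x : ℝ) - y + 1) / (4 * x + 3 * y + 9) := ⟨_, rfl⟩
  have hε' : ε * (4 * x + 3 * y + 9) = x - y + 1 := by
    rw [hε, div_mul_cancel₀ _ hM.ne']
  have hc : (2 * ((x + 2 : ℕ) : ℝ) - ((x + y + 3 : ℕ) : ℝ)) /
      (3 * ((x + y + 3 : ℕ) : ℝ) + ((x + 2 : ℕ) : ℝ) - 2) = ε := by
    rw [hε]
    push_cast
    congr 1 <;> ring
  rw [hc]
  have h1R : 9 * (y : ℝ) + 3 ≤ 2 * x := by exact_mod_cast h1'
  have hnum : (0 : ℝ) ≤ (x : ℝ) - y + 1 := by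
    have : (0 : ℝ) ≤ y := Nat.cast_nonneg _
    linarith
  have h0 : 0 ≤ ε := by
    rw [hε]
    exact div_nonneg hnum hM.le
  have h4 : 4 * ε ≤ 1 := by
    have h2R : 3 * (x : ℝ) ≤ 17 * y + 7 := by exact_mod_cast h2'
    have : ε ≤ 1 / 4 := by
      rw [hε, div_le_div_iff₀ hM (by norm_num)]
      have : (0 : ℝ) ≤ y := Nat.cast_nonneg _
      linarith
    linarith
  have h := word2 (ε := ε) x y h1' h2' hε'
  have h5 := nw_end h0 h (by linarith) le_rfl (by linarith)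
  have e1 : 4 * x + 3 * y + 7 + 4 = 3 * (x + y + 3) + (x + 2) := by ring
  have e2 : x + y + 2 + 1 = x + y + 3 := by ring
  rw [e1, e2] at h5
  exact h5.min (by linarith) le_rfl (Nat.lt_succ_self _)

end Pool.Agent.TwoDens.K4N
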